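import Pool.Agent.L7h54.GR.Stm

/-!
# Project GR: growth rates exist
-/

set_option autoImplicit false

open Finset Filter Topology
open scoped Pointwise

namespace Pool.Agent.L7h21.GR

open Pool.Agent.L7h54.GR

variable {G : Type} [Group G] (S : Finset G)

theorem ball_zero : ball S 0 = {1} := by
  ext g
  rw [Set.mem_singleton_iff]
  constructor
  · rintro ⟨l, h1, -, h2⟩
    have : l = [] := List.length_eq_zero_iff.1 (by omega)
    rw [← h2, this]; rfl
  · rintro rfl
    exact ⟨[], by simp, by simp, rfl⟩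

theorem one_mem_ball (n : ℕ) : (1 : G) ∈ ball S n := ⟨[], by simp, by simp, rfl⟩

theorem ball_add (m n : ℕ) : ball S (m + n) ⊆ ball S m * ball S n := by
  rintro g ⟨l, h1, h2, h3⟩
  refine Set.mem_mul.2 ⟨(l.take m).prod, ⟨l.take m, ?_, fun s hs => h2 s (List.mem_of_mem_take hs), rfl⟩,
    (l.drop m).prod, ⟨l.drop m, ?_, fun s hs => h2 s (List.mem_of_mem_drop hs), rfl⟩, ?_⟩
  · simp
  · rw [List.length_drop]; omega
  · rw [← h3, ← List.prod_append, List.take_append_drop]

theorem ball_one : ball S 1 ⊆ insert 1 ((S : Set G) ∪ (S : Set G)⁻¹) := by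
  rintro g ⟨l, h1, h2, h3⟩
  rcases l with _ | ⟨s, l⟩
  · left; rw [← h3]; rfl
  · right
    have : l = [] := List.length_eq_zero_iff.1 (by rw [List.length_cons] at h1; omega)
    subst this
    have h4 := h2 s (by simp)
    rw [← h3]
    simpa using h4

theorem ball_finite (n : ℕ) : (ball S n).Finite := by
  induction n with
  | zero => rw [ball_zero]; exact Set.finite_singleton 1
  | succ n ih =>
    refine Set.Finite.subset (ih.mul ?_) (ball_add S n 1)
    refine Set.Finite.subset ?_ (ball_one S)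
    exact ((S.finite_toSet.union (S.finite_toSet.inv))).insert 1

theorem card_pos (n : ℕ) : 1 ≤ Nat.card (ball S n) := by
  have : Finite (ball S n) := ball_finite S n
  have : Nonempty (ball S n) := ⟨⟨1, one_mem_ball S n⟩⟩
  exact Nat.card_pos

theorem card_add (m n : ℕ) : Nat.card (ball S (m + n)) ≤ Nat.card (ball S m) * Nat.card (ball S n) := by
  refine le_trans ?_ (Set.natCard_mul_le (s := ball S m) (t := ball S n))
  exact Nat.card_mono ((ball_finite S m).mul (ball_finite S n)) (ball_add S m n)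

/-- the logarithm of the size of the ball -/
noncomputable def lg (n : ℕ) : ℝ := Real.log (Nat.card (ball S n))

theorem lg_nonneg (n : ℕ) : 0 ≤ lg S n := Real.log_nonneg (by exact_mod_cast card_pos S n)

theorem lg_sub : Subadditive (lg S) := by
  intro m n
  unfold lg
  have h1 : (0 : ℝ) < Nat.card (ball S m) := by exact_mod_cast card_pos S m
  have h2 : (0 : ℝ) < Nat.card (ball S n) := by exact_mod_cast card_pos S n
  have h3 : (0 : ℝ) < Nat.card (ball S (m + n)) := by exact_mod_cast card_pos S (m + n)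
  rw [← Real.log_mul h1.ne' h2.ne']
  exact Real.log_le_log h3 (by exact_mod_cast card_add S m n)

theorem lg_bdd : BddBelow (Set.range fun n : ℕ => lg S n / n) :=
  ⟨0, by rintro _ ⟨n, rfl⟩; exact div_nonneg (lg_nonneg S n) (Nat.cast_nonneg n)⟩

theorem rate_eq (n : ℕ) : (Nat.card (ball S n) : ℝ) ^ ((1 : ℝ) / (n : ℝ)) = Real.exp (lg S n / n) := by
  rw [Real.rpow_def_of_pos (by exact_mod_cast card_pos S n)]
  unfold lg
  congr 1
  ring

theorem isRate : IsRate S (Real.exp (lg_sub S).lim) := by
  unfold IsRate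
  simp_rw [rate_eq]
  exact (Real.continuous_exp.tendsto _).comp ((lg_sub S).tendsto_lim (lg_bdd S))

theorem lim_nonneg : 0 ≤ (lg_sub S).lim :=
  ge_of_tendsto' ((lg_sub S).tendsto_lim (lg_bdd S)) fun n =>
    div_nonneg (lg_nonneg S n) (Nat.cast_nonneg n)

theorem s_FEK : S_FEK := by
  intro G _ S
  refine ⟨ball_finite S, ⟨_, Real.one_le_exp (lim_nonneg S), isRate S⟩, ?_, ?_⟩
  · intro e y he hy hC
    obtain ⟨C, hC⟩ := hC
    have he' := tendsto_nhds_unique he (isRate S)
    have hC0 : 0 < C := by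
      have h0 := hC 0
      rw [pow_zero, mul_one] at h0
      have : (1 : ℝ) ≤ Nat.card (ball S 0) := by exact_mod_cast card_pos S 0
      linarith
    have h1 : (lg_sub S).lim ≤ Real.log y := by
      have hlim : Tendsto (fun n : ℕ => Real.log C / n + Real.log y) atTop (𝓝 (0 + Real.log y)) :=
        (tendsto_const_div_atTop_nhds_zero_nat _).add_const _
      rw [zero_add] at hlim
      refine le_of_tendsto_of_tendsto ((lg_sub S).tendsto_lim (lg_bdd S)) hlim ?_
      filter_upwards [eventually_ge_atTop 1] with n hn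
      have hn0 : (0 : ℝ) < n := by exact_mod_cast hn
      have h3 : (0 : ℝ) < Nat.card (ball S n) := by exact_mod_cast card_pos S n
      rw [div_le_iff₀ hn0, add_mul, div_mul_cancel₀ _ hn0.ne']
      calc lg S n ≤ Real.log (C * y ^ n) := Real.log_le_log h3 (hC n)
        _ = Real.log C + Real.log y * n := by
          rw [Real.log_mul hC0.ne' (pow_pos hy n).ne', Real.log_pow]; ring
    rw [he']
    calc Real.exp (lg_sub S).lim ≤ Real.exp (Real.log y) := Real.exp_le_exp.2 h1
      _ = y := Real.exp_log hy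
  · intro e y he hey
    have he' := tendsto_nhds_unique he (isRate S)
    have hy : 0 < y := lt_trans (by rw [he']; exact Real.exp_pos _) hey
    have hev : ∀ᶠ n : ℕ in atTop, (Nat.card (ball S n) : ℝ) ^ ((1 : ℝ) / (n : ℝ)) < y :=
      he.eventually_lt_const hey
    obtain ⟨N, hN⟩ := eventually_atTop.1 hev
    refine ⟨1 + ∑ i ∈ range (N + 1), (Nat.card (ball S i) : ℝ) / y ^ i, fun n => ?_⟩
    have hs : ∀ i, 0 ≤ (Nat.card (ball S i) : ℝ) / y ^ i := fun i => by positivity
    rcases le_or_gt n N with h | h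
    · have h1 : (Nat.card (ball S n) : ℝ) / y ^ n ≤ ∑ i ∈ range (N + 1), (Nat.card (ball S i) : ℝ) / y ^ i :=
        Finset.single_le_sum (f := fun i => (Nat.card (ball S i) : ℝ) / y ^ i) (fun i _ => hs i)
          (Finset.mem_range.2 (by omega))
      calc (Nat.card (ball S n) : ℝ) = (Nat.card (ball S n) : ℝ) / y ^ n * y ^ n := by
            rw [div_mul_cancel₀ _ (pow_pos hy n).ne']
        _ ≤ _ := mul_le_mul_of_nonneg_right (by linarith) (pow_nonneg hy.le n)
    · have h1 := hN n h.le
      have hn0 : (n : ℝ) ≠ 0 := by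
        have : 0 < n := by omega
        exact_mod_cast this.ne'
      have h3 : (0 : ℝ) ≤ Nat.card (ball S n) := Nat.cast_nonneg _
      have h2 : (Nat.card (ball S n) : ℝ) ≤ y ^ n := by
        have h4 : ((Nat.card (ball S n) : ℝ) ^ ((1 : ℝ) / (n : ℝ))) ^ n ≤ y ^ n :=
          pow_le_pow_left₀ (Real.rpow_nonneg h3 _) h1.le n
        rwa [← Real.rpow_natCast, ← Real.rpow_mul h3, one_div_mul_cancel hn0, Real.rpow_one] at h4
      have h5 : 0 ≤ ∑ i ∈ range (N + 1), (Nat.card (ball S i) : ℝ) / y ^ i :=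
        Finset.sum_nonneg fun i _ => hs i
      calc (Nat.card (ball S n) : ℝ) ≤ 1 * y ^ n := by rw [one_mul]; exact h2
        _ ≤ _ := mul_le_mul_of_nonneg_right (by linarith) (pow_nonneg hy.le n)

end Pool.Agent.L7h21.GR
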