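import Pool.Agent.L7h54.GR.Stm

/-!
# Project GR: the group is linear
-/

set_option autoImplicit false

open Finset
open scoped symmDiff

namespace Pool.Agent.L7h21.GR

open Pool.Agent.L7h54.GR

/-- the field -/
abbrev KK : Type := LaurentSeries (ZMod 2)

/-- a power of the variable -/
noncomputable def T (m : ℤ) : KK := HahnSeries.single m 1

/-- the series of a finite set -/
noncomputable def F (s : Finset ℤ) : KK := ∑ y ∈ s, T y

theorem coeff_T (m y : ℤ) : (T m).coeff y = if y = m then 1 else 0 := by
  unfold T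
  rw [HahnSeries.coeff_single]
  split_ifs <;> rfl

theorem coeff_F (s : Finset ℤ) (y : ℤ) : (F s).coeff y = if y ∈ s then 1 else 0 := by
  unfold F
  induction s using Finset.induction_on with
  | empty => simp
  | insert a s ha ih =>
    rw [Finset.sum_insert ha, HahnSeries.coeff_add, ih, coeff_T]
    by_cases h : y = a
    · subst h; simp [ha]
    · simp [h]

theorem T_add (m n : ℤ) : T (m + n) = T m * T n := by
  unfold T
  rw [HahnSeries.single_mul_single, one_mul]

theorem T_zero : T 0 = 1 := rfl

theorem F_empty : F ∅ = 0 := rfl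

theorem F_symm (s t : Finset ℤ) : F (s ∆ t) = F s + F t := by
  ext y
  rw [HahnSeries.coeff_add, coeff_F, coeff_F, coeff_F]
  by_cases h1 : y ∈ s <;> by_cases h2 : y ∈ t <;> simp [Finset.mem_symmDiff, h1, h2]
  decide

theorem F_sh (n : ℤ) (s : Finset ℤ) : F (sh n s) = T n * F s := by
  unfold F sh
  rw [Finset.sum_map, Finset.mul_sum]
  exact Finset.sum_congr rfl fun y _ => T_add n y

theorem F_inj {s t : Finset ℤ} (h : F s = F t) : s = t := by
  ext y
  have h1 := congrArg (fun f : KK => f.coeff y) h
  simp only [coeff_F] at h1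
  by_cases h2 : y ∈ s <;> by_cases h3 : y ∈ t <;> simp_all

theorem T_inj {m n : ℤ} (h : T m = T n) : m = n := by
  have h1 := congrArg (fun f : KK => f.coeff m) h
  simp only [coeff_T] at h1
  by_contra h2
  simp [h2] at h1

/-- the matrix of an element -/
noncomputable def mat (g : LL) : Matrix (Fin 4) (Fin 4) KK :=
  !![T g.m, F g.c, F g.h, F g.q; 0, 1, 0, 0; 0, 0, 1, 0; 0, 0, 0, 1]

theorem mat_one : mat 1 = 1 := by
  unfold mat
  ext i j
  fin_cases i <;> fin_cases j <;> simp [T_zero, F_empty]

theorem mat_mul (x y : LL) : mat (x * y) = mat x * mat y := by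
  unfold mat
  ext i j
  fin_cases i <;> fin_cases j <;>
    simp [Matrix.mul_apply, Fin.sum_univ_four, T_add, F_symm, F_sh, add_comm]

theorem s_LIN : S_LIN := by
  refine ⟨KK, inferInstance, MonoidHom.toHomUnits ⟨⟨mat, mat_one⟩, mat_mul⟩, ?_⟩
  intro x y h
  have h1 : mat x = mat y := congrArg (fun u : (Matrix (Fin 4) (Fin 4) KK)ˣ => (u : Matrix (Fin 4) (Fin 4) KK)) h
  have e : ∀ i j, mat x i j = mat y i j := fun i j => by rw [h1]
  have e0 := T_inj (show T x.m = T y.m from e 0 0)
  have e1 := F_inj (show F x.c = F y.c from e 0 1)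
  have e2 := F_inj (show F x.h = F y.h from e 0 2)
  have e3 := F_inj (show F x.q = F y.q from e 0 3)
  exact LL.ext e1 e2 e3 e0

end Pool.Agent.L7h21.GR
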