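import Pool.Agent.L7h54.GR.Stm

/-!
# Project GR: finite energy
-/

set_option autoImplicit false

open Finset

namespace Pool.Agent.L7h21.GR

open Pool.Agent.L7h54.GR

theorem out_abs {V : Type} [Fintype V] [DecidableEq V] (ρ c₀ : ℝ) (n : ℕ) (s : V → Bool)
    (w : (V → Bool) → ℝ) (hρ0 : 0 < ρ) (hρ1 : ρ < 1) (hc0 : 0 ≤ c₀) (hc1 : c₀ ≤ 1)
    (hw0 : ∀ u, 0 ≤ w u)
    (hw : ∀ (U : Finset V) (u u' : V → Bool), U.card ≤ n → (∀ v, v ∉ U → u v = u' v) →
      ρ ^ (4 * n) * w u ≤ w u') (R : ℕ) (Vi : ℕ → Finset V)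
    (hdis : ∀ i < R, ∀ j < R, i ≠ j → Disjoint (Vi i) (Vi j)) (hcard : ∀ i < R, (Vi i).card ≤ n) :
    ∑ u : V → Bool, w u * c₀ ^ ((range R).filter (fun i => ∀ v ∈ Vi i, u v ≠ s v)).card ≤
      (1 - (1 - c₀) * (ρ ^ (4 * n) / 2 ^ n)) ^ R * ∑ u : V → Bool, w u := by
  have hκ0 : 0 ≤ ρ ^ (4 * n) / 2 ^ n := by positivity
  have hκ1 : ρ ^ (4 * n) / 2 ^ n ≤ 1 := by
    rw [div_le_one (by positivity)]
    exact (pow_le_one₀ hρ0.le hρ1.le).trans (one_le_pow₀ (by norm_num))
  have hk : 0 ≤ 1 - (1 - c₀) * (ρ ^ (4 * n) / 2 ^ n) := by nlinarith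
  induction R with
  | zero => simp
  | succ R ih =>
    have ih' := ih (fun i hi j hj hij => hdis i (by omega) j (by omega) hij)
      (fun i hi => hcard i (by omega))
    obtain ⟨F, hF⟩ : ∃ F : (V → Bool) → ℝ, F = fun u =>
      w u * c₀ ^ ((range R).filter (fun i => ∀ v ∈ Vi i, u v ≠ s v)).card := ⟨_, rfl⟩
    have hF0 : ∀ u, 0 ≤ F u := by
      intro u; rw [hF]; exact mul_nonneg (hw0 u) (pow_nonneg hc0 _)
    obtain ⟨pr, hpr⟩ : ∃ pr : (V → Bool) → (V → Bool), pr = fun u v => if v ∈ Vi R then !(s v) else u v :=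
      ⟨_, rfl⟩
    have hprP : ∀ u, ∀ v ∈ Vi R, pr u v ≠ s v := by
      intro u v hv
      rw [hpr]
      simp [hv]
    have h1 : ∀ u, ρ ^ (4 * n) * F u ≤ F (pr u) := by
      intro u
      have e1 : ρ ^ (4 * n) * w u ≤ w (pr u) :=
        hw (Vi R) u (pr u) (hcard R (by omega)) fun v hv => by rw [hpr]; simp [hv]
      have e2 : ((range R).filter (fun i => ∀ v ∈ Vi i, pr u v ≠ s v)) =
          ((range R).filter (fun i => ∀ v ∈ Vi i, u v ≠ s v)) := by
        refine Finset.filter_congr fun i hi => ?_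
        have hi' := Finset.mem_range.1 hi
        refine forall₂_congr fun v hv => ?_
        have : v ∉ Vi R := fun hv' =>
          Finset.disjoint_left.1 (hdis i (by omega) R (by omega) (by omega)) hv hv'
        rw [hpr]
        simp [this]
      rw [hF]
      simp only
      rw [e2]
      calc ρ ^ (4 * n) * (w u * c₀ ^ ((range R).filter (fun i => ∀ v ∈ Vi i, u v ≠ s v)).card) =
            (ρ ^ (4 * n) * w u) * c₀ ^ ((range R).filter (fun i => ∀ v ∈ Vi i, u v ≠ s v)).card := by ring
        _ ≤ _ := mul_le_mul_of_nonneg_right e1 (pow_nonneg hc0 _)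
    have h2 : ∑ u, F (pr u) ≤ 2 ^ n * ∑ u, if (∀ v ∈ Vi R, u v ≠ s v) then F u else 0 := by
      rw [← Finset.sum_fiberwise (univ : Finset (V → Bool)) pr, Finset.mul_sum]
      refine Finset.sum_le_sum fun y _ => ?_
      have e1 : ∑ u ∈ (univ : Finset (V → Bool)) with pr u = y, F (pr u) =
          ((univ : Finset (V → Bool)).filter (fun u => pr u = y)).card * F y := by
        rw [Finset.sum_congr rfl (fun u hu => by rw [(Finset.mem_filter.1 hu).2] :
          ∀ u ∈ (univ : Finset (V → Bool)).filter (fun u => pr u = y), F (pr u) = F y)]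
        rw [Finset.sum_const, nsmul_eq_mul]
      rw [e1]
      by_cases hP : ∀ v ∈ Vi R, y v ≠ s v
      · rw [if_pos hP]
        refine mul_le_mul_of_nonneg_right ?_ (hF0 y)
        have hc : ((univ : Finset (V → Bool)).filter (fun u => pr u = y)).card ≤ 2 ^ n := by
          calc ((univ : Finset (V → Bool)).filter (fun u => pr u = y)).card ≤
                (univ : Finset (Vi R → Bool)).card := by
                refine Finset.card_le_card_of_injOn (fun u v => u v.1) (fun _ _ => Finset.mem_coe.2 (Finset.mem_univ _)) ?_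
                intro u hu u' hu' huu
                have hu1 := (Finset.mem_filter.1 (Finset.mem_coe.1 hu)).2
                have hu2 := (Finset.mem_filter.1 (Finset.mem_coe.1 hu')).2
                funext v
                by_cases hv : v ∈ Vi R
                · exact congrFun huu ⟨v, hv⟩
                · have h3 := congrFun (hu1.trans hu2.symm) v
                  rw [hpr] at h3
                  simpa [hv] using h3
            _ = 2 ^ (Vi R).card := by simp
            _ ≤ 2 ^ n := Nat.pow_le_pow_right (by norm_num) (hcard R (by omega))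
        exact_mod_cast hc
      · rw [if_neg hP]
        have : (univ : Finset (V → Bool)).filter (fun u => pr u = y) = ∅ := by
          refine Finset.filter_eq_empty_iff.2 fun u _ hu => hP ?_
          rw [← hu]
          exact hprP u
        rw [this]
        simp
    have h3 : (ρ ^ (4 * n) / 2 ^ n) * ∑ u, F u ≤ ∑ u, if (∀ v ∈ Vi R, u v ≠ s v) then F u else 0 := by
      have e1 : ρ ^ (4 * n) * ∑ u, F u ≤ ∑ u, F (pr u) := by
        rw [Finset.mul_sum]; exact Finset.sum_le_sum fun u _ => h1 u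
      rw [div_mul_eq_mul_div, div_le_iff₀ (by positivity)]
      linarith
    have h4 : ∀ u : V → Bool, w u * c₀ ^ ((range (R + 1)).filter (fun i => ∀ v ∈ Vi i, u v ≠ s v)).card =
        F u - (1 - c₀) * (if (∀ v ∈ Vi R, u v ≠ s v) then F u else 0) := by
      intro u
      rw [Finset.range_add_one, Finset.filter_insert, hF]
      split_ifs with hP
      · rw [Finset.card_insert_of_notMem (by simp), pow_succ]; ring
      · ring
    calc ∑ u : V → Bool, w u * c₀ ^ ((range (R + 1)).filter (fun i => ∀ v ∈ Vi i, u v ≠ s v)).card =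
          ∑ u, F u - (1 - c₀) * ∑ u, (if (∀ v ∈ Vi R, u v ≠ s v) then F u else 0) := by
          rw [Finset.mul_sum, ← Finset.sum_sub_distrib]
          exact Finset.sum_congr rfl fun u _ => h4 u
      _ ≤ (1 - (1 - c₀) * (ρ ^ (4 * n) / 2 ^ n)) * ∑ u, F u := by
          have : (1 - c₀) * ((ρ ^ (4 * n) / 2 ^ n) * ∑ u, F u) ≤
            (1 - c₀) * ∑ u, (if (∀ v ∈ Vi R, u v ≠ s v) then F u else 0) :=
            mul_le_mul_of_nonneg_left h3 (by linarith)
          linarith
      _ ≤ (1 - (1 - c₀) * (ρ ^ (4 * n) / 2 ^ n)) *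
          ((1 - (1 - c₀) * (ρ ^ (4 * n) / 2 ^ n)) ^ R * ∑ u : V → Bool, w u) := by
          refine mul_le_mul_of_nonneg_left ?_ hk
          rw [hF]; exact ih'
      _ = _ := by rw [pow_succ]; ring

theorem r_le_one {ρ : ℝ} (h1 : ρ < 1) (x y : Bool) : r ρ x y ≤ 1 := by
  unfold r; split_ifs <;> linarith

theorem le_r {ρ : ℝ} (h1 : ρ < 1) (x y : Bool) : ρ ≤ r ρ x y := by
  unfold r; split_ifs <;> linarith

theorem s_OUT : S_OUT := by
  classical
  intro V B _ _ _ a b ρ c₀ n R Vi hρ0 hρ1 hc0 hc1 hdis hcard hdeg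
  rw [Finset.mul_sum]
  refine Finset.sum_le_sum fun s _ => ?_
  refine out_abs ρ c₀ n s (fun s' => ∏ e : B, r ρ (s (a e)) (s (b e)) * r ρ (s' (a e)) (s' (b e)))
    hρ0 hρ1 hc0 hc1 (fun u => ?_) (fun U u u' hU huu => ?_) R Vi hdis hcard
  · exact Finset.prod_nonneg fun e _ => mul_nonneg (hρ0.le.trans (le_r hρ1 _ _)) (hρ0.le.trans (le_r hρ1 _ _))
  · obtain ⟨T, hT⟩ : ∃ T : Finset B, T = univ.filter (fun e => a e ∈ U ∨ b e ∈ U) := ⟨_, rfl⟩
    have hTc : T.card ≤ 4 * n := by
      have h1 : T ⊆ U.biUnion (fun v => (univ.filter (fun e => a e = v)) ∪ (univ.filter (fun e => b e = v))) := by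
        intro e he
        rw [hT, Finset.mem_filter] at he
        rw [Finset.mem_biUnion]
        rcases he.2 with h | h
        · exact ⟨a e, h, by simp⟩
        · exact ⟨b e, h, by simp⟩
      calc T.card ≤ (U.biUnion (fun v => (univ.filter (fun e => a e = v)) ∪
            (univ.filter (fun e => b e = v)))).card := Finset.card_le_card h1
        _ ≤ ∑ v ∈ U, ((univ.filter (fun e => a e = v)) ∪ (univ.filter (fun e => b e = v))).card :=
            Finset.card_biUnion_le
        _ ≤ ∑ _v ∈ U, 4 := Finset.sum_le_sum fun v _ => (Finset.card_union_le _ _).trans (hdeg v)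
        _ = 4 * U.card := by rw [Finset.sum_const, smul_eq_mul, mul_comm]
        _ ≤ 4 * n := by omega
    have h2 : ρ ^ (4 * n) ≤ ∏ e : B, (if e ∈ T then ρ else 1) := by
      rw [Finset.prod_ite_mem, Finset.univ_inter, Finset.prod_const]
      exact pow_le_pow_of_le_one hρ0.le hρ1.le hTc
    have hw : 0 ≤ ∏ e : B, r ρ (s (a e)) (s (b e)) * r ρ (u (a e)) (u (b e)) :=
      Finset.prod_nonneg fun e _ => mul_nonneg (hρ0.le.trans (le_r hρ1 _ _)) (hρ0.le.trans (le_r hρ1 _ _))
    calc ρ ^ (4 * n) * ∏ e : B, r ρ (s (a e)) (s (b e)) * r ρ (u (a e)) (u (b e)) ≤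
          (∏ e : B, (if e ∈ T then ρ else 1)) * ∏ e : B, r ρ (s (a e)) (s (b e)) * r ρ (u (a e)) (u (b e)) :=
          mul_le_mul_of_nonneg_right h2 hw
      _ = ∏ e : B, (if e ∈ T then ρ else 1) * (r ρ (s (a e)) (s (b e)) * r ρ (u (a e)) (u (b e))) := by
          rw [← Finset.prod_mul_distrib]
      _ ≤ ∏ e : B, r ρ (s (a e)) (s (b e)) * r ρ (u' (a e)) (u' (b e)) := by
          refine Finset.prod_le_prod (fun e _ => ?_) fun e _ => ?_
          · have := mul_nonneg (hρ0.le.trans (le_r hρ1 (s (a e)) (s (b e))))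
              (hρ0.le.trans (le_r hρ1 (u (a e)) (u (b e))))
            split_ifs
            · exact mul_nonneg hρ0.le this
            · simpa using this
          · have hs0 : 0 ≤ r ρ (s (a e)) (s (b e)) := hρ0.le.trans (le_r hρ1 _ _)
            split_ifs with he
            · have e1 := r_le_one hρ1 (u (a e)) (u (b e))
              have e2 := le_r hρ1 (u' (a e)) (u' (b e))
              have e3 : ρ * r ρ (u (a e)) (u (b e)) ≤ r ρ (u' (a e)) (u' (b e)) := by nlinarith
              calc ρ * (r ρ (s (a e)) (s (b e)) * r ρ (u (a e)) (u (b e))) =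
                    r ρ (s (a e)) (s (b e)) * (ρ * r ρ (u (a e)) (u (b e))) := by ring
                _ ≤ _ := mul_le_mul_of_nonneg_left e3 hs0
            · rw [hT, Finset.mem_filter] at he
              push Not at he
              have h3 := he (Finset.mem_univ _)
              rw [one_mul, huu _ h3.1, huu _ h3.2]

end Pool.Agent.L7h21.GR
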