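import Pool.Agent.L7h54.GR.Stm

/-!
# Project GR: the partition function is supermultiplicative
-/

set_option autoImplicit false

open Finset

namespace Pool.Agent.L7h21.GR

open Pool.Agent.L7h54.GR

variable {x : ℝ}

theorem one_le_bd (hx : 0 ≤ x) (s : Finset ℤ) (j y : ℤ) : 1 ≤ bd x s j y := by
  unfold bd; split_ifs <;> linarith

theorem bd_le_two (hx : x ≤ 1) (s : Finset ℤ) (j y : ℤ) : bd x s j y ≤ 2 := by
  unfold bd; split_ifs <;> linarith

theorem bd_nonneg (hx : 0 ≤ x) (s : Finset ℤ) (j y : ℤ) : 0 ≤ bd x s j y :=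
  le_trans zero_le_one (one_le_bd hx s j y)

theorem bd_congr {s s' : Finset ℤ} {j y y' : ℤ} (h1 : y - j ∈ s ↔ y' - j ∈ s') (h2 : y ∈ s ↔ y' ∈ s') :
    bd x s j y = bd x s' j y' := by
  unfold bd
  exact if_congr (and_congr h1 (not_congr h2)) rfl rfl

theorem wt_nonneg (hx : 0 ≤ x) (k : ℕ) (a b : ℤ) (s : Finset ℤ) : 0 ≤ wt k a b x s :=
  mul_nonneg (Finset.prod_nonneg fun _ _ => bd_nonneg hx _ _ _)
    (Finset.prod_nonneg fun _ _ => bd_nonneg hx _ _ _)

theorem bonds (hx : 0 ≤ x) (j : ℕ) (a b : ℕ) (s₁ s₂ : Finset ℤ)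
    (h1 : s₁ ⊆ Ico (0 : ℤ) a) (h2 : s₂ ⊆ Ico (0 : ℤ) b) :
    (∏ y ∈ Ico ((0 : ℤ) + j) a, bd x s₁ j y) * ∏ y ∈ Ico ((0 : ℤ) + j) b, bd x s₂ j y ≤
      ∏ y ∈ Ico ((0 : ℤ) + j) ((a + b : ℕ) : ℤ), bd x (s₁ ∪ sh a s₂) j y := by
  have hm1 : ∀ y : ℤ, y < a → (y ∈ s₁ ∪ sh a s₂ ↔ y ∈ s₁) := by
    intro y hy
    rw [Finset.mem_union, mem_sh]
    constructor
    · rintro (h | h)
      · exact h
      · have := Finset.mem_Ico.1 (h2 h); omega
    · exact Or.inl
  have hm2 : ∀ y : ℤ, 0 ≤ y → ((a : ℤ) + y ∈ s₁ ∪ sh a s₂ ↔ y ∈ s₂) := by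
    intro y hy
    rw [Finset.mem_union, mem_sh, show (a : ℤ) + y - a = y by ring]
    constructor
    · rintro (h | h)
      · have := Finset.mem_Ico.1 (h1 h); omega
      · exact h
    · exact Or.inr
  have e1 : ∏ y ∈ Ico ((0 : ℤ) + j) a, bd x s₁ j y = ∏ y ∈ Ico ((0 : ℤ) + j) a, bd x (s₁ ∪ sh a s₂) j y := by
    refine Finset.prod_congr rfl fun y hy => ?_
    have hy' := Finset.mem_Ico.1 hy
    exact bd_congr (hm1 (y - j) (by omega)).symm (hm1 y hy'.2).symm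
  have e2 : ∏ y ∈ Ico ((0 : ℤ) + j) b, bd x s₂ j y =
      ∏ y ∈ Ico ((a : ℤ) + j) ((a + b : ℕ) : ℤ), bd x (s₁ ∪ sh a s₂) j y := by
    refine Finset.prod_bij (fun y _ => (a : ℤ) + y) ?_ ?_ ?_ ?_
    · intro y hy
      have hy' := Finset.mem_Ico.1 hy
      rw [Finset.mem_Ico]; push_cast; omega
    · intro y _ y' _ h; omega
    · intro y hy
      have hy' := Finset.mem_Ico.1 hy
      push_cast at hy'
      exact ⟨y - a, Finset.mem_Ico.2 (by omega), by ring⟩
    · intro y hy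
      have hy' := Finset.mem_Ico.1 hy
      refine bd_congr ?_ (hm2 y (by omega)).symm
      rw [show (a : ℤ) + y - j = a + (y - j) by ring]
      exact (hm2 (y - j) (by omega)).symm
  rw [e1, e2, ← Finset.prod_union]
  · refine Finset.prod_le_prod_of_subset_of_one_le (fun y hy => ?_) ?_ ?_
    · rcases Finset.mem_union.1 hy with hy | hy <;> have := Finset.mem_Ico.1 hy <;>
        rw [Finset.mem_Ico] <;> push_cast at * <;> omega
    · exact fun y _ => bd_nonneg hx _ _ _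
    · exact fun y _ _ => one_le_bd hx _ _ _
  · rw [Finset.disjoint_left]
    intro y hy hy'
    have := Finset.mem_Ico.1 hy
    have := Finset.mem_Ico.1 hy'
    omega

theorem union_inj {a : ℕ} {s₁ s₂ t₁ t₂ : Finset ℤ} (h1 : s₁ ⊆ Ico (0 : ℤ) a) (h1' : t₁ ⊆ Ico (0 : ℤ) a)
    {b : ℕ} (h2 : s₂ ⊆ Ico (0 : ℤ) b) (h2' : t₂ ⊆ Ico (0 : ℤ) b) (h : s₁ ∪ sh a s₂ = t₁ ∪ sh a t₂) :
    s₁ = t₁ ∧ s₂ = t₂ := by
  have key : ∀ y : ℤ, y ∈ s₁ ∪ sh a s₂ ↔ y ∈ t₁ ∪ sh a t₂ := fun y => by rw [h]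
  simp only [Finset.mem_union, mem_sh] at key
  constructor
  · ext y
    constructor
    · intro hy
      rcases (key y).1 (Or.inl hy) with h3 | h3
      · exact h3
      · have := Finset.mem_Ico.1 (h2' h3); have := Finset.mem_Ico.1 (h1 hy); omega
    · intro hy
      rcases (key y).2 (Or.inl hy) with h3 | h3
      · exact h3
      · have := Finset.mem_Ico.1 (h2 h3); have := Finset.mem_Ico.1 (h1' hy); omega
  · ext y
    constructor
    · intro hy
      rcases (key (y + a)).1 (Or.inr (by rwa [add_sub_cancel_right])) with h3 | h3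
      · have := Finset.mem_Ico.1 (h1' h3); have := Finset.mem_Ico.1 (h2 hy); omega
      · rwa [add_sub_cancel_right] at h3
    · intro hy
      rcases (key (y + a)).2 (Or.inr (by rwa [add_sub_cancel_right])) with h3 | h3
      · have := Finset.mem_Ico.1 (h1 h3); have := Finset.mem_Ico.1 (h2' hy); omega
      · rwa [add_sub_cancel_right] at h3

theorem wt_mul (hx : 0 ≤ x) (k a b : ℕ) (s₁ s₂ : Finset ℤ)
    (h1 : s₁ ⊆ Ico (0 : ℤ) a) (h2 : s₂ ⊆ Ico (0 : ℤ) b) :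
    wt k 0 a x s₁ * wt k 0 b x s₂ ≤ wt k 0 ((a + b : ℕ) : ℤ) x (s₁ ∪ sh a s₂) := by
  have e1 := bonds hx 1 a b s₁ s₂ h1 h2
  have e2 := bonds hx k a b s₁ s₂ h1 h2
  push_cast at e1
  have n : ∀ (s : Finset ℤ) (j : ℤ) (I : Finset ℤ), 0 ≤ ∏ y ∈ I, bd x s j y := fun s j I =>
    Finset.prod_nonneg fun _ _ => bd_nonneg hx _ _ _
  unfold wt
  calc _ = ((∏ y ∈ Ico ((0 : ℤ) + 1) a, bd x s₁ 1 y) * ∏ y ∈ Ico ((0 : ℤ) + 1) b, bd x s₂ 1 y) *
        ((∏ y ∈ Ico ((0 : ℤ) + k) a, bd x s₁ k y) * ∏ y ∈ Ico ((0 : ℤ) + k) b, bd x s₂ k y) := by ring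
    _ ≤ _ := by
        push_cast
        push_cast at e2
        exact mul_le_mul e1 e2 (mul_nonneg (n _ _ _) (n _ _ _)) (n _ _ _)

theorem s_PSUP : S_PSUP := by
  intro k x hk hx0 hx1
  have hone : ∀ N : ℕ, wt k 0 N x ∅ ≤ P k N x := fun N =>
    Finset.single_le_sum (f := fun s => wt k 0 N x s) (fun s _ => wt_nonneg hx0 k 0 N s)
      (Finset.empty_mem_powerset _)
  have hemp : ∀ N : ℕ, wt k 0 N x ∅ = 2 ^ ((N - 1) + (N - k)) := by
    intro N
    have e : ∀ (j y : ℤ), bd x ∅ j y = 2 := fun j y => by unfold bd; simp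
    unfold wt
    simp only [e, Finset.prod_const, Int.card_Ico]
    rw [← pow_add]
    congr 1
    omega
  refine ⟨fun a b => ?_, fun N => ?_, fun N => ?_⟩
  · unfold P
    rw [Finset.sum_mul_sum, ← Finset.sum_product']
    calc ∑ p ∈ (Ico (0 : ℤ) a).powerset ×ˢ (Ico (0 : ℤ) b).powerset, wt k 0 a x p.1 * wt k 0 b x p.2 ≤
          ∑ p ∈ (Ico (0 : ℤ) a).powerset ×ˢ (Ico (0 : ℤ) b).powerset,
            wt k 0 ((a + b : ℕ) : ℤ) x (p.1 ∪ sh a p.2) := by
          refine Finset.sum_le_sum fun p hp => ?_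
          have hp' := Finset.mem_product.1 hp
          exact wt_mul hx0 k a b p.1 p.2 (Finset.mem_powerset.1 hp'.1) (Finset.mem_powerset.1 hp'.2)
      _ = ∑ s ∈ ((Ico (0 : ℤ) a).powerset ×ˢ (Ico (0 : ℤ) b).powerset).image
            (fun p => p.1 ∪ sh a p.2), wt k 0 ((a + b : ℕ) : ℤ) x s := by
          rw [Finset.sum_image]
          intro p hp q hq h
          have hp' := Finset.mem_product.1 (Finset.mem_coe.1 hp)
          have hq' := Finset.mem_product.1 (Finset.mem_coe.1 hq)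
          have := union_inj (Finset.mem_powerset.1 hp'.1) (Finset.mem_powerset.1 hq'.1)
            (Finset.mem_powerset.1 hp'.2) (Finset.mem_powerset.1 hq'.2) h
          exact Prod.ext this.1 this.2
      _ ≤ ∑ s ∈ (Ico (0 : ℤ) ((a + b : ℕ) : ℤ)).powerset, wt k 0 ((a + b : ℕ) : ℤ) x s := by
          refine Finset.sum_le_sum_of_subset_of_nonneg ?_ fun s _ _ => wt_nonneg hx0 _ _ _ _
          intro s hs
          obtain ⟨p, hp, rfl⟩ := Finset.mem_image.1 hs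
          have hp' := Finset.mem_product.1 hp
          rw [Finset.mem_powerset]
          intro y hy
          rw [Finset.mem_union, mem_sh] at hy
          rw [Finset.mem_Ico]
          push_cast
          rcases hy with hy | hy
          · have := Finset.mem_Ico.1 (Finset.mem_powerset.1 hp'.1 hy); omega
          · have := Finset.mem_Ico.1 (Finset.mem_powerset.1 hp'.2 hy); omega
  · refine le_trans ?_ (hone N)
    rw [hemp, div_le_iff₀ (by positivity), ← pow_add, show (4 : ℝ) = 2 ^ 2 by norm_num, ← pow_mul]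
    exact pow_le_pow_right₀ (by norm_num) (by omega)
  · refine le_trans ?_ (hone N)
    rw [hemp]
    exact one_le_pow₀ (by norm_num)

end Pool.Agent.L7h21.GR
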