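import Pool.Agent.L7h54.GR.Stm

/-!
# Project GR: the cyclic model is an Ising model
-/

set_option autoImplicit false

open Finset

namespace Pool.Agent.L7h21.GR

open Pool.Agent.L7h54.GR

/-- the gauge factor -/
noncomputable def gg (ρ : ℝ) (a : Bool) : ℝ := if a then ρ else 1

theorem W_eq {x ρ : ℝ} (hρ : ρ ≠ 0) (h : 2 * ρ ^ 2 = 1 + x) (a b : Bool) :
    W x a b = 2 * r ρ a b * (gg ρ a / gg ρ b) := by
  unfold W r gg
  cases a <;> cases b <;> simp [hρ]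
  nlinarith

theorem gauge {N : ℕ} [NeZero N] {ρ : ℝ} (hρ : ρ ≠ 0) (s : ZMod N → Bool) (j : ZMod N) :
    ∏ y : ZMod N, gg ρ (s y) / gg ρ (s (y + j)) = 1 := by
  rw [Finset.prod_div_distrib]
  have h : ∏ y : ZMod N, gg ρ (s (y + j)) = ∏ y : ZMod N, gg ρ (s y) :=
    Fintype.prod_equiv (Equiv.addRight j) _ _ fun y => rfl
  rw [h]
  refine div_self (Finset.prod_ne_zero_iff.2 fun y _ => ?_)
  unfold gg
  split_ifs
  · exact hρ
  · exact one_ne_zero

theorem s_SYM : S_SYM := by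
  intro k N _ x hx0 hx1
  obtain ⟨ρ, hρ⟩ : ∃ ρ, ρ = Real.sqrt ((1 + x) / 2) := ⟨_, rfl⟩
  rw [← hρ]
  have hpos : 0 < ρ := by rw [hρ]; exact Real.sqrt_pos.2 (by linarith)
  have h2 : 2 * ρ ^ 2 = 1 + x := by
    rw [hρ, Real.sq_sqrt (by linarith)]; ring
  unfold Cy D
  rw [Finset.mul_sum]
  refine Finset.sum_congr rfl fun s _ => ?_
  have e1 : ∀ y : ZMod N, W x (s y) (s (y + 1)) * W x (s y) (s (y + k)) =
      4 * (r ρ (s y) (s (y + 1)) * r ρ (s y) (s (y + k))) *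
        ((gg ρ (s y) / gg ρ (s (y + 1))) * (gg ρ (s y) / gg ρ (s (y + k)))) := by
    intro y
    rw [W_eq hpos.ne' h2, W_eq hpos.ne' h2]; ring
  simp_rw [e1]
  rw [Finset.prod_mul_distrib, Finset.prod_mul_distrib, Finset.prod_mul_distrib (f := fun y : ZMod N =>
    gg ρ (s y) / gg ρ (s (y + 1))), gauge hpos.ne', gauge hpos.ne', Finset.prod_const]
  simp

end Pool.Agent.L7h21.GR
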